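import Pool.Agent.Lib.MP_cc24ba_al.VirIso
import Pool.Agent.Lib.MP_cc24ba_al.VirDom
import Pool.Agent.Lib.MP_cc24ba_al.VirClaim

set_option linter.all false

/-!
# Complete primeness of the primitive ideals of `U(W_{-1})`, `U(W)` and `U(Vir)`

For every field `k` of characteristic zero and for each of the Lie algebras
`W_{-1} = Der k[t]`, `W = Der k[t,t⁻¹]` and the Virasoro algebra, every prime two-sided ideal of
the enveloping algebra is completely prime; in particular every primitive ideal is completely
prime.
-/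

noncomputable section

open Polynomial LaurentPolynomial

namespace Pool.Agent.Results.MP_cc24ba_al.CompletePrimeness

universe u v w

/-- Every two-sided ideal `P` of `R` which is prime (`1 ∉ P`, and `x R y ⊆ P` implies `x ∈ P` or
`y ∈ P`) is completely prime (`x y ∈ P` implies `x ∈ P` or `y ∈ P`). -/
def PrimesCompletelyPrime (R : Type u) [Ring R] : Prop :=
  ∀ P : TwoSidedIdeal R, (1 : R) ∉ P →
    (∀ x y : R, (∀ r : R, x * r * y ∈ P) → x ∈ P ∨ y ∈ P) →
    ∀ x y : R, x * y ∈ P → x ∈ P ∨ y ∈ P

/-- For every simple left `R`-module `M` the annihilator of `M` is completely prime: if `a * b`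
annihilates `M` then `a` or `b` annihilates `M`. -/
def PrimitivesCompletelyPrime (R : Type u) [Ring R] : Prop :=
  ∀ (M : Type v) [AddCommGroup M] [Module R M] [IsSimpleModule R M] (a b : R),
    (∀ m : M, (a * b) • m = 0) → (∀ m : M, a • m = 0) ∨ (∀ m : M, b • m = 0)

/-- `b` is a basis of the Lie algebra `L` with the defining relations of the Virasoro algebra,
where `b (some n)` is the element `e_n` and `b none` is the central element `z`:
`[e_m, e_n] = (n - m) e_{m+n} + δ_{m+n,0} (m³ - m)/12 z` and `[z, x] = 0`. -/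
def IsVirasoroBasis (k : Type u) [Field k] (L : Type w) [LieRing L] [LieAlgebra k L]
    (b : Module.Basis (Option ℤ) k L) : Prop :=
  (∀ m n : ℤ, ⁅b (some m), b (some n)⁆ = ((n : k) - (m : k)) • b (some (m + n)) +
    (if m + n = 0 then ((m : k) ^ 3 - (m : k)) / 12 else 0) • b none) ∧
  (∀ x : L, ⁅b none, x⁆ = 0)

theorem prim_of_prime {R : Type u} [Ring R] (h : MPcc24.AllCP R) :
    PrimesCompletelyPrime R ∧ PrimitivesCompletelyPrime.{u, v} R := by
  refine ⟨fun P h1 h2 => h P ⟨h1, h2⟩, fun M _ _ _ a b hab => ?_⟩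
  have := h _ (MPcc24.primeT_annT R M) a b ((MPcc24.mem_annT R M _).2 hab)
  rwa [MPcc24.mem_annT, MPcc24.mem_annT] at this

/-- **Theorem.** Let `k` be a field of characteristic zero.
(1) Every prime ideal and every primitive ideal of `U(Der k[t])` is completely prime.
(2) The same holds for `U(Der k[t,t⁻¹])`.
(3) The Virasoro algebra exists, and the same holds for its enveloping algebra. -/
theorem result (k : Type u) [Field k] [CharZero k] :
    (PrimesCompletelyPrime (UniversalEnvelopingAlgebra k (Derivation k k[X] k[X])) ∧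
      PrimitivesCompletelyPrime.{u, v}
        (UniversalEnvelopingAlgebra k (Derivation k k[X] k[X]))) ∧
    (PrimesCompletelyPrime (UniversalEnvelopingAlgebra k (Derivation k k[T;T⁻¹] k[T;T⁻¹])) ∧
      PrimitivesCompletelyPrime.{u, v}
        (UniversalEnvelopingAlgebra k (Derivation k k[T;T⁻¹] k[T;T⁻¹]))) ∧
    ((∃ (L : Type u) (_ : LieRing L) (_ : LieAlgebra k L) (b : Module.Basis (Option ℤ) k L),
        IsVirasoroBasis k L b) ∧
      ∀ (L : Type w) [LieRing L] [LieAlgebra k L] (b : Module.Basis (Option ℤ) k L),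
        IsVirasoroBasis k L b →
        PrimesCompletelyPrime (UniversalEnvelopingAlgebra k L) ∧
        PrimitivesCompletelyPrime.{max u w, v} (UniversalEnvelopingAlgebra k L)) := by
  refine ⟨prim_of_prime (MPcc24.wrap_poly MPcc24.mainThm k),
    prim_of_prime (MPcc24.wrap_laurent MPcc24.mainThm k),
    ⟨MPcc24.VLie k, inferInstance, inferInstance, MPcc24.vbasis k, MPcc24.vbasis_rel⟩, ?_⟩
  intro L _ _ b hb
  exact prim_of_prime (MPcc24.virAllCP
    (MPcc24.specVirPrime (MPcc24.specVirDom MPcc24.specVirClaim MPcc24.specSymDom)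
      MPcc24.mainThm MPcc24.specTADom) b hb)

end Pool.Agent.Results.MP_cc24ba_al.CompletePrimeness
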